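import Pool.Agent.KSec.Final

/-!
For every `k ≥ 2` and every countably infinite set `Ω` there is a group of permutations of `Ω`
which is transitive on `k`-sections but not on `(k+1)`-sections (no extra set-theoretic axioms).
-/

open scoped Pointwise

namespace Pool.Agent.Results.MP_618ed1_al.SectionTransitive

open Pool.Agent.KSec

/-- A `k`-section of `Ω`: a set of exactly `k` pairwise disjoint infinite subsets of `Ω` whose
union is `Ω`. -/
def IsSection {Ω : Type*} (k : ℕ) (P : Set (Set Ω)) : Prop :=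
  P.encard = k ∧ (∀ A ∈ P, A.Infinite) ∧ P.PairwiseDisjoint id ∧ ⋃₀ P = Set.univ

/-- The permutation group `G` on `Ω` is transitive on `k`-sections: for any two `k`-sections `P`,
`Q` some `g ∈ G` sends `P` to `Q`, that is `{g(A) : A ∈ P} = Q`. -/
def TransitiveOnSections {Ω : Type*} (G : Subgroup (Equiv.Perm Ω)) (k : ℕ) : Prop :=
  ∀ P Q : Set (Set Ω), IsSection k P → IsSection k Q → ∃ g ∈ G, (fun A => g '' A) '' P = Q

theorem IsSection.exists_coloring {Ω : Type*} {k : ℕ} {P : Set (Set Ω)} (hP : IsSection k P) :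
    ∃ A : Ω → Fin k, P = Set.range (fun i => A ⁻¹' {i}) ∧ ∀ i, (A ⁻¹' {i}).Infinite := by
  classical
  obtain ⟨h1, h2, h3, h4⟩ := hP
  have hfin : P.Finite := Set.finite_of_encard_eq_coe h1
  have : Finite P := hfin
  have hcard : Nat.card P = k := by
    rw [Nat.card_coe_set_eq, Set.ncard, h1]
    rfl
  let e : P ≃ Fin k := Finite.equivFinOfCardEq hcard
  have hex : ∀ w : Ω, ∃ A : P, w ∈ A.1 := by
    intro w
    have : w ∈ ⋃₀ P := by rw [h4]; trivial
    obtain ⟨A, hA, hw⟩ := this
    exact ⟨⟨A, hA⟩, hw⟩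
  choose part hpart using hex
  have huniq : ∀ (w : Ω) (A : P), w ∈ A.1 → part w = A := by
    intro w A hw
    by_contra hne
    have hne' : (part w).1 ≠ A.1 := fun h => hne (Subtype.ext h)
    exact (Set.disjoint_left.mp (h3 (part w).2 A.2 hne')) (hpart w) hw
  have hfib : ∀ i, (fun w => e (part w)) ⁻¹' {i} = (e.symm i).1 := by
    intro i
    ext w
    constructor
    · intro h
      have h' : e (part w) = i := h
      rw [← h', Equiv.symm_apply_apply]
      exact hpart w
    · intro h
      show e (part w) = i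
      rw [huniq w _ h, Equiv.apply_symm_apply]
  refine ⟨fun w => e (part w), ?_, ?_⟩
  · ext A
    constructor
    · intro hA
      refine ⟨e ⟨A, hA⟩, ?_⟩
      show (fun w => e (part w)) ⁻¹' {e ⟨A, hA⟩} = A
      rw [hfib, Equiv.symm_apply_apply]
    · rintro ⟨i, rfl⟩
      show (fun w => e (part w)) ⁻¹' {i} ∈ P
      rw [hfib]
      exact (e.symm i).2
  · intro i
    rw [hfib]
    exact h2 _ (e.symm i).2

theorem isSection_range {Ω : Type*} {k : ℕ} {A : Ω → Fin k}
    (hA : ∀ i, (A ⁻¹' {i}).Infinite) : IsSection k (Set.range (fun i => A ⁻¹' {i})) := by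
  have hinj : Function.Injective (fun i => A ⁻¹' {i}) := by
    intro i j h
    obtain ⟨w, hw⟩ := (hA i).nonempty
    have h' : w ∈ A ⁻¹' {j} := by
      have : A ⁻¹' {i} = A ⁻¹' {j} := h
      rw [← this]
      exact hw
    have e1 : A w = i := hw
    have e2 : A w = j := h'
    rw [← e1, e2]
  refine ⟨?_, ?_, ?_, ?_⟩
  · rw [← Set.image_univ, hinj.encard_image]
    simp
  · rintro _ ⟨i, rfl⟩
    exact hA i
  · rintro _ ⟨i, rfl⟩ _ ⟨j, rfl⟩ hne
    show Disjoint (A ⁻¹' {i}) (A ⁻¹' {j})
    rw [Set.disjoint_left]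
    intro w hw hw'
    apply hne
    have e1 : A w = i := hw
    have e2 : A w = j := hw'
    have : i = j := by rw [← e1, e2]
    subst this
    rfl
  · ext w
    simp

theorem fibre_comp_infinite {Ω Ω' : Type*} (e : Ω ≃ Ω') {k : ℕ} {A : Ω → Fin k}
    (hA : ∀ i, (A ⁻¹' {i}).Infinite) (i : Fin k) : ((fun n => A (e.symm n)) ⁻¹' {i}).Infinite := by
  have h1 := (hA i).image (f := e) e.injective.injOn
  refine h1.mono ?_
  rintro _ ⟨w, hw, rfl⟩
  show A (e.symm (e w)) = i
  rw [Equiv.symm_apply_apply]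
  exact hw

theorem exists_shift (k : ℕ) : ∃ (t : Equiv.Perm ℕ) (s : ℕ → Fin (k + 1)),
    t ≠ 1 ∧ Cof (Subgroup.zpowers t) ∧ (∀ n, s (t n) = s n) ∧ ∀ j, (s ⁻¹' {j}).Infinite := by
  obtain ⟨u⟩ : Nonempty (ℕ ≃ ℤ × Fin (k + 1)) := nonempty_equiv_of_countable
  let sh : Equiv.Perm (ℤ × Fin (k + 1)) := (Equiv.addRight 1).prodCongr (Equiv.refl _)
  let t : Equiv.Perm ℕ := u.trans (sh.trans u.symm)
  have ht : ∀ n, u (t n) = ((u n).1 + 1, (u n).2) := by
    intro n
    show u (u.symm (sh (u n))) = _
    rw [Equiv.apply_symm_apply]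
    rfl
  have htinv : ∀ n, u (t⁻¹ n) = ((u n).1 - 1, (u n).2) := by
    intro n
    have h := ht (t⁻¹ n)
    have h0 : t (t⁻¹ n) = n := by simp
    rw [h0] at h
    rw [h]
    ext <;> simp
  have hpow : ∀ m : ℤ, ∀ n, u ((t ^ m) n) = ((u n).1 + m, (u n).2) := by
    intro m
    induction m using Int.induction_on with
    | zero => intro n; simp
    | succ i ih =>
      intro n
      rw [zpow_add_one, Equiv.Perm.mul_apply, ih, ht]
      ext
      · show (u n).1 + 1 + (i : ℤ) = (u n).1 + ((i : ℤ) + 1)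
        ring
      · rfl
    | pred i ih =>
      intro n
      rw [zpow_sub_one, Equiv.Perm.mul_apply, ih, htinv]
      ext
      · show (u n).1 - 1 + (-(i : ℤ)) = (u n).1 + (-(i : ℤ) - 1)
        ring
      · rfl
  refine ⟨t, fun n => (u n).2, ?_, ?_, ?_, ?_⟩
  · intro h
    have h1 := ht 0
    rw [h] at h1
    have h2 := congrArg Prod.fst h1
    simp at h2
  · intro h hh hne
    obtain ⟨m, rfl⟩ := Subgroup.mem_zpowers_iff.mp hh
    convert Set.finite_empty (α := ℕ)
    rw [Set.eq_empty_iff_forall_notMem]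
    intro v hv
    have hv' : (t ^ m) v = v := hv
    have h1 := hpow m v
    rw [hv'] at h1
    have h2 := congrArg Prod.fst h1
    have h3 : (u v).1 = (u v).1 + m := h2
    have h4 : m = 0 := by omega
    apply hne
    rw [h4, zpow_zero]
  · intro n
    show (u (t n)).2 = (u n).2
    rw [ht]
  · intro j
    refine Set.infinite_of_injective_forall_mem (f := fun z : ℤ => u.symm (z, j)) ?_ ?_
    · intro a b hab
      have := u.symm.injective hab
      exact congrArg Prod.fst this
    · intro z
      show (u (u.symm (z, j))).2 = j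
      rw [Equiv.apply_symm_apply]

/-- For every `k ≥ 2` and every countably infinite `Ω` there is a permutation group on `Ω` that is
transitive on `k`-sections but not on `(k+1)`-sections. -/
theorem result {Ω : Type*} [Countable Ω] [Infinite Ω] (k : ℕ) (hk : 2 ≤ k) :
    ∃ G : Subgroup (Equiv.Perm Ω), TransitiveOnSections G k ∧ ¬ TransitiveOnSections G (k + 1) := by
  classical
  obtain ⟨t, s, ht1, ht, hs, hsi⟩ := exists_shift k
  -- the second section: swap two points in different classes
  obtain ⟨a, ha⟩ := (hsi 0).nonempty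
  obtain ⟨b, hb⟩ := (hsi (Fin.last k)).nonempty
  have ha' : s a = 0 := ha
  have hb' : s b = Fin.last k := hb
  have h0l : (0 : Fin (k + 1)) ≠ Fin.last k := by
    intro h
    have := congrArg Fin.val h
    simp at this
    omega
  let sw : Equiv.Perm ℕ := Equiv.swap a b
  let τ : ℕ → Fin (k + 1) := fun n => s (sw n)
  have hτi : ∀ j, (τ ⁻¹' {j}).Infinite := by
    intro j
    have h1 := (hsi j).image (f := sw) sw.injective.injOn
    refine h1.mono ?_
    rintro _ ⟨n, hn, rfl⟩
    show s (sw (sw n)) = j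
    have : sw (sw n) = n := Equiv.swap_apply_self a b n
    rw [this]
    exact hn
  have hne : ¬ ∀ j', ∃ j, s ⁻¹' {j} = τ ⁻¹' {j'} := by
    intro hall
    obtain ⟨j, hj⟩ := hall 0
    have h1 : b ∈ τ ⁻¹' {0} := by
      show s (sw b) = 0
      have : sw b = a := Equiv.swap_apply_right a b
      rw [this, ha']
    rw [← hj] at h1
    have h2 : s b = j := h1
    obtain ⟨c, hc1, hc2⟩ := (hsi 0).exists_gt (max a b)
    have hca : c ≠ a := by
      have := (le_max_left a b).trans_lt hc2
      omega
    have hcb : c ≠ b := by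
      have := (le_max_right a b).trans_lt hc2
      omega
    have h3 : c ∈ τ ⁻¹' {0} := by
      show s (sw c) = 0
      have : sw c = c := Equiv.swap_apply_of_ne_of_ne hca hcb
      rw [this]
      exact hc1
    rw [← hj] at h3
    have h4 : s c = j := h3
    have h5 : s c = 0 := hc1
    exact h0l (by rw [← h5, h4, ← h2, hb'])
  obtain ⟨G, hG1, hG2⟩ := core ht1 ht (by omega : 1 ≤ k) hs hsi hne
  obtain ⟨e⟩ : Nonempty (Ω ≃ ℕ) := nonempty_equiv_of_countable
  refine ⟨G.comap (Equiv.permCongrHom e).toMonoidHom, ?_, ?_⟩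
  · intro P Q hP hQ
    obtain ⟨A, rfl, hA⟩ := hP.exists_coloring
    obtain ⟨B, rfl, hB⟩ := hQ.exists_coloring
    obtain ⟨h, hh, hAB⟩ := hG1 (fun n => A (e.symm n)) (fun n => B (e.symm n))
      (fibre_comp_infinite e hA) (fibre_comp_infinite e hB)
    let g : Equiv.Perm Ω := (Equiv.permCongrHom e).symm h
    have hg : (Equiv.permCongrHom e) g = h := MulEquiv.apply_symm_apply _ _
    have hgv : ∀ w, e (g w) = h (e w) := by
      intro w
      rw [← hg]
      simp [Equiv.permCongrHom]
    have hBg : ∀ w, B (g w) = A w := by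
      intro w
      have h1 := hAB (e w)
      rw [← hgv] at h1
      simpa using h1
    refine ⟨g, ?_, ?_⟩
    · show (Equiv.permCongrHom e) g ∈ G
      rw [hg]
      exact hh
    · have himg : ∀ i, g '' (A ⁻¹' {i}) = B ⁻¹' {i} := by
        intro i
        ext w
        constructor
        · rintro ⟨v, hv, rfl⟩
          show B (g v) = i
          rw [hBg]
          exact hv
        · intro hw
          refine ⟨g.symm w, ?_, by simp⟩
          show A (g.symm w) = i
          rw [← hBg]
          simpa using hw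
      rw [← Set.range_comp]
      congr 1
      funext i
      exact himg i
  · intro htr
    have hS := isSection_range (fibre_comp_infinite e.symm hsi)
    have hT := isSection_range (fibre_comp_infinite e.symm hτi)
    obtain ⟨g, hg, himg⟩ := htr _ _ hS hT
    apply hG2 _ hg
    intro j'
    have h1 : (fun w => τ (e w)) ⁻¹' {j'} ∈ (fun A => g '' A) '' (Set.range
        (fun i => (fun w => s (e.symm.symm w)) ⁻¹' {i})) := by
      rw [himg]
      exact ⟨j', rfl⟩
    obtain ⟨_, ⟨j, rfl⟩, h2⟩ := h1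
    refine ⟨j, ?_⟩
    ext n
    rw [Set.mem_smul_set_iff_inv_smul_mem]
    have h3 : e.symm n ∈ (fun w => τ (e w)) ⁻¹' {j'} ↔ n ∈ τ ⁻¹' {j'} := by
      show τ (e (e.symm n)) = j' ↔ τ n = j'
      rw [Equiv.apply_symm_apply]
    rw [← h3, ← h2]
    constructor
    · intro h4
      refine ⟨g.symm (e.symm n), ?_, by simp⟩
      exact h4
    · rintro ⟨v, hv, hv'⟩
      have h5 : v = g.symm (e.symm n) := by
        rw [← hv']
        simp
      rw [h5] at hv
      exact hv

end Pool.Agent.Results.MP_618ed1_al.SectionTransitive
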